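import Pool.Agent.H23.BG.TargetsL

/-!
# (RT) the number of the zeros of a quadratic polynomial modulo a power of a prime
-/

set_option autoImplicit false

open NumberField

namespace Pool.Agent.H48.BG

open Pool.Agent.H23.BG Pool.Agent.H23.LB

section val

variable {A : Type} [CommRing A] [IsDedekindDomain A] {P : Ideal A}

/-- a factor outside `P ^ (i + 1)` takes away at most `i` powers of `P` -/
theorem dv1 (hP : P.IsPrime) (h0 : P ≠ ⊥) {x y : A} {i m : ℕ} (hx : x ∉ P ^ (i + 1))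
    (hxy : x * y ∈ P ^ m) : y ∈ P ^ (m - i) := by
  have hp : Prime P := Ideal.prime_of_isPrime h0 hP
  induction i generalizing m x with
  | zero =>
    rw [Nat.sub_zero]
    by_contra hy
    induction m generalizing y with
    | zero => exact hy (by simp)
    | succ m ih =>
      by_cases hym : y ∈ P ^ m
      · have h1 := succ_dvd_or_succ_dvd_of_succ_sum_dvd_mul hp (a := Ideal.span {x})
          (b := Ideal.span {y}) (k := 0) (l := m) (by simp)
          (Ideal.dvd_span_singleton.mpr hym)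
          (by
            rw [Ideal.span_singleton_mul_span_singleton, Ideal.dvd_span_singleton, zero_add]
            exact hxy)
        rcases h1 with h1 | h1
        · exact hx (Ideal.dvd_span_singleton.mp h1)
        · exact hy (Ideal.dvd_span_singleton.mp h1)
      · exact ih (Ideal.pow_le_pow_right (Nat.le_succ m) hxy) hym
  | succ i ih =>
    by_cases hx1 : x ∈ P ^ (i + 1)
    · by_contra hy
      have hm : i + 1 ≤ m := by
        by_contra hc
        exact hy (by
          rw [Nat.sub_eq_zero_of_le (by omega)]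
          simp)
      -- the exact valuation of y
      have hex : ∃ l, y ∉ P ^ (l + 1) := ⟨m - (i + 1), fun h => hy
        (Ideal.pow_le_pow_right (Nat.le_succ _) h)⟩
      classical
      have hl := Nat.find_spec hex
      have hl2 : y ∈ P ^ (Nat.find hex) := by
        rcases Nat.eq_zero_or_pos (Nat.find hex) with h | h
        · rw [h]; simp
        · have h3 := Nat.find_min hex (m := Nat.find hex - 1) (by omega)
          rw [not_not] at h3
          rwa [Nat.sub_add_cancel h] at h3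
      have hl3 : Nat.find hex + 1 ≤ m - (i + 1) := by
        by_contra hc
        exact hy (Ideal.pow_le_pow_right (by omega) hl2)
      have h1 := succ_dvd_or_succ_dvd_of_succ_sum_dvd_mul hp (a := Ideal.span {x})
          (b := Ideal.span {y}) (k := i + 1) (l := Nat.find hex)
          (Ideal.dvd_span_singleton.mpr hx1)
          (Ideal.dvd_span_singleton.mpr hl2)
          (by
            rw [Ideal.span_singleton_mul_span_singleton, Ideal.dvd_span_singleton]
            exact Ideal.pow_le_pow_right (by omega) hxy)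
      rcases h1 with h1 | h1
      · exact hx (Ideal.dvd_span_singleton.mp h1)
      · exact hl (Ideal.dvd_span_singleton.mp h1)
    · exact Ideal.pow_le_pow_right (by omega) (ih hx1 hxy)

/-- every non-zero element has an exact exponent -/
theorem ex_val (hP : P.IsPrime) {x : A} (hx : x ≠ 0) : ∃ j, x ∈ P ^ j ∧ x ∉ P ^ (j + 1) := by
  have hex : ∃ l, x ∉ P ^ (l + 1) := by
    by_contra hc
    push Not at hc
    have h1 : x ∈ (⨅ i : ℕ, P ^ i : Ideal A) := by
      rw [Ideal.mem_iInf]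
      intro i
      exact Ideal.pow_le_pow_right (Nat.le_succ i) (hc i)
    rw [Ideal.iInf_pow_eq_bot_of_isDomain P hP.ne_top] at h1
    exact hx (by simpa using h1)
  classical
  refine ⟨Nat.find hex, ?_, Nat.find_spec hex⟩
  rcases Nat.eq_zero_or_pos (Nat.find hex) with h | h
  · rw [h]; simp
  · have h3 := Nat.find_min hex (m := Nat.find hex - 1) (by omega)
    rw [not_not] at h3
    rwa [Nat.sub_add_cancel h] at h3

/-- the exact exponent below a given bound -/
theorem ex_val' {x : A} {n : ℕ} (hx : x ∉ P ^ n) : ∃ j, j < n ∧ x ∈ P ^ j ∧ x ∉ P ^ (j + 1) := by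
  have hex : ∃ l, x ∉ P ^ (l + 1) := ⟨n, fun h => hx (Ideal.pow_le_pow_right (Nat.le_succ _) h)⟩
  classical
  have h2 : x ∈ P ^ (Nat.find hex) := by
    rcases Nat.eq_zero_or_pos (Nat.find hex) with h | h
    · rw [h]; simp
    · have h3 := Nat.find_min hex (m := Nat.find hex - 1) (by omega)
      rw [not_not] at h3
      rwa [Nat.sub_add_cancel h] at h3
  refine ⟨Nat.find hex, ?_, h2, Nat.find_spec hex⟩
  by_contra hc
  exact hx (Ideal.pow_le_pow_right (by omega) h2)

/-- the product of elements outside the powers -/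
theorem mul_nmem (hP : P.IsPrime) (h0 : P ≠ ⊥) {x y : A} {i j : ℕ} (hx : x ∉ P ^ (i + 1))
    (hy : y ∉ P ^ (j + 1)) : x * y ∉ P ^ (i + j + 1) := by
  intro h
  have h1 := dv1 hP h0 hx h
  exact hy (by rwa [show i + j + 1 - i = j + 1 by omega] at h1)

theorem mul_pmem {x y : A} {i j : ℕ} (hx : x ∈ P ^ i) (hy : y ∈ P ^ j) : x * y ∈ P ^ (i + j) := by
  rw [pow_add]; exact Ideal.mul_mem_mul hx hy

/-- comparison of exponents -/
theorem le_of_val {x : A} {i j : ℕ} (hx : x ∈ P ^ i) (hy : x ∉ P ^ (j + 1)) : i ≤ j := by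
  by_contra hc
  exact hy (Ideal.pow_le_pow_right (by omega) hx)

end val

section cnt

variable {K : Type} [Field K] [NumberField K] {P : Ideal (𝓞 K)}

/-- the number of the elements of `O / P ^ k` -/
theorem card_q (k : ℕ) : Nat.card (𝓞 K ⧸ P ^ k) = Ideal.absNorm P ^ k := by
  rw [← map_pow, Ideal.absNorm_apply, Submodule.cardQuot_apply]

theorem q_pos (h0 : P ≠ ⊥) : 1 ≤ Ideal.absNorm P := by
  rw [Nat.one_le_iff_ne_zero, ne_eq, Ideal.absNorm_eq_zero_iff]
  exact h0

theorem fin_q (h0 : P ≠ ⊥) (k : ℕ) : Finite (𝓞 K ⧸ P ^ k) := by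
  apply Nat.finite_of_card_ne_zero
  rw [card_q]
  have := q_pos h0
  positivity

/-- the classes modulo `P ^ k` in a class modulo `P ^ i` -/
theorem cls (h0 : P ≠ ⊥) (k i : ℕ) (S : Set (𝓞 K ⧸ P ^ k))
    (hS : ∀ u u' : 𝓞 K, Ideal.Quotient.mk (P ^ k) u ∈ S → Ideal.Quotient.mk (P ^ k) u' ∈ S →
      u - u' ∈ P ^ i) : S.ncard ≤ Ideal.absNorm P ^ (k - i) := by
  have := fin_q (K := K) h0 k
  rcases Set.eq_empty_or_nonempty S with hSe | ⟨w, hw⟩
  · rw [hSe, Set.ncard_empty]; exact Nat.zero_le _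
  obtain ⟨u₀, rfl⟩ := Ideal.Quotient.mk_surjective w
  -- reduce to i ≤ k
  wlog hik : i ≤ k generalizing i with H
  · have := H k (fun u u' hu hu' => Ideal.pow_le_pow_right (by omega) (hS u u' hu hu')) le_rfl
    rw [Nat.sub_self, pow_zero] at this
    rw [Nat.sub_eq_zero_of_le (by omega), pow_zero]
    exact this
  have hle : P ^ k ≤ P ^ i := Ideal.pow_le_pow_right hik
  let J : Ideal (𝓞 K ⧸ P ^ k) := (P ^ i).map (Ideal.Quotient.mk (P ^ k))
  have hJ : Nat.card J * Ideal.absNorm P ^ i = Ideal.absNorm P ^ k := by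
    have h1 := Submodule.card_eq_card_quotient_mul_card (R := 𝓞 K ⧸ P ^ k) J
    rw [card_q] at h1
    rw [h1, ← card_q i]
    congr 1
    exact (Nat.card_congr (DoubleQuot.quotQuotEquivQuotOfLE hle).toEquiv).symm
  have hJ' : Nat.card J = Ideal.absNorm P ^ (k - i) := by
    have hq : 0 < Ideal.absNorm P ^ i := pow_pos (q_pos h0) _
    apply Nat.eq_of_mul_eq_mul_right hq
    rw [hJ, ← pow_add, Nat.sub_add_cancel hik]
  rw [← hJ']
  have h2 : Nat.card J = (J : Set (𝓞 K ⧸ P ^ k)).ncard := rfl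
  rw [h2]
  apply Set.ncard_le_ncard_of_injOn (fun w => w - Ideal.Quotient.mk (P ^ k) u₀)
  · intro w hw'
    obtain ⟨u, rfl⟩ := Ideal.Quotient.mk_surjective w
    have h3 := hS u u₀ hw' hw
    show Ideal.Quotient.mk (P ^ k) u - Ideal.Quotient.mk (P ^ k) u₀ ∈ J
    rw [← map_sub]
    exact Ideal.mem_map_of_mem _ h3
  · intro a _ b _ hab
    exact sub_left_injective hab

/-- the set of the zeros -/
def ZS (P : Ideal (𝓞 K)) (k : ℕ) (α β γ : 𝓞 K) : Set (𝓞 K ⧸ P ^ k) :=
  {u | Ideal.Quotient.mk (P ^ k) α * u ^ 2 + 2 * Ideal.Quotient.mk (P ^ k) β * u +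
    Ideal.Quotient.mk (P ^ k) γ = 0}

theorem mem_ZS {k : ℕ} {α β γ u : 𝓞 K} :
    Ideal.Quotient.mk (P ^ k) u ∈ ZS P k α β γ ↔ α * u ^ 2 + 2 * β * u + γ ∈ P ^ k := by
  rw [← Ideal.Quotient.eq_zero_iff_mem]
  simp only [map_add, map_mul, map_pow, map_ofNat]
  rfl

theorem ncard_triv (h0 : P ≠ ⊥) (k : ℕ) (S : Set (𝓞 K ⧸ P ^ k)) :
    S.ncard ≤ Ideal.absNorm P ^ k := by
  have := cls h0 k 0 S (fun u u' _ _ => by simp)
  simpa using this

/-- the exponents of the content and of the discriminant -/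
theorem content (hP : P.IsPrime) (h0 : P ≠ ⊥) {t δ m : ℕ} {α β γ : 𝓞 K}
    (h2 : (2 : 𝓞 K) ∉ P ^ (t + 1)) (ha : α ∈ P ^ m) (hb : 2 * β ∈ P ^ m) (hg : γ ∈ P ^ m)
    (hD : β ^ 2 - α * γ ∉ P ^ (δ + 1)) : 2 * m ≤ 2 * t + δ := by
  have h1 : 2 * (2 * (β ^ 2 - α * γ)) ∈ P ^ (m + m) := by
    have e1 : 2 * (2 * (β ^ 2 - α * γ)) = (2 * β) * (2 * β) - 4 * (α * γ) := by ring
    rw [e1]
    exact sub_mem (mul_pmem hb hb) (Ideal.mul_mem_left _ _ (mul_pmem ha hg))
  have h3 := mul_nmem hP h0 h2 (mul_nmem hP h0 h2 hD)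
  have h4 := le_of_val h1 (j := t + (t + δ)) (by rwa [show t + (t + δ) + 1 = t + (t + δ + 1) + 0 by
    omega] )
  omega

/-- the case of a large content coefficient -/
theorem main_nat (hP : P.IsPrime) (h0 : P ≠ ⊥) {k t c : ℕ} {α β γ : 𝓞 K}
    (h2 : (2 : 𝓞 K) ∉ P ^ (t + 1)) (ha : α ∈ P ^ c) (hb : 2 * β ∈ P ^ c) (hg : γ ∈ P ^ c)
    (hc : ¬ (α ∈ P ^ (c + 1) ∧ 2 * β ∈ P ^ (c + 1) ∧ γ ∈ P ^ (c + 1))) :
    (ZS P k α β γ).ncard ^ 2 ≤ 4 * Ideal.absNorm P ^ (2 * t) * Ideal.absNorm P ^ (k + c) ∧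
    ∀ δ : ℕ, β ^ 2 - α * γ ∉ P ^ (δ + 1) →
      (ZS P k α β γ).ncard ^ 2 ≤ 4 * Ideal.absNorm P ^ (2 * t) * Ideal.absNorm P ^ δ := by
  have hfin := fin_q (K := K) h0 k
  have hq := q_pos h0
  set q := Ideal.absNorm P with hqd
  have hpos : ∀ m, 1 ≤ q ^ m := fun m => Nat.one_le_pow _ _ hq
  -- a bound by a power gives the claim
  have key : ∀ m : ℕ, (ZS P k α β γ).ncard ≤ 2 * q ^ m → 2 * m ≤ 2 * t + (k + c) →
      (∀ δ : ℕ, β ^ 2 - α * γ ∉ P ^ (δ + 1) → 2 * m ≤ 2 * t + δ) →
      (ZS P k α β γ).ncard ^ 2 ≤ 4 * q ^ (2 * t) * q ^ (k + c) ∧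
    ∀ δ : ℕ, β ^ 2 - α * γ ∉ P ^ (δ + 1) →
      (ZS P k α β γ).ncard ^ 2 ≤ 4 * q ^ (2 * t) * q ^ δ := by
    intro m h1 h3 h4
    have h5 : ∀ s : ℕ, 2 * m ≤ 2 * t + s → (ZS P k α β γ).ncard ^ 2 ≤ 4 * q ^ (2 * t) * q ^ s := by
      intro s hs
      calc (ZS P k α β γ).ncard ^ 2 ≤ (2 * q ^ m) ^ 2 := Nat.pow_le_pow_left h1 2
        _ = 4 * q ^ (2 * m) := by rw [mul_pow, ← pow_mul, mul_comm m 2]; norm_num
        _ ≤ 4 * q ^ (2 * t + s) := Nat.mul_le_mul_left _ (Nat.pow_le_pow_right hq hs)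
        _ = 4 * q ^ (2 * t) * q ^ s := by rw [pow_add, mul_assoc]
    exact ⟨h5 _ h3, fun δ hδ => h5 _ (h4 δ hδ)⟩
  rcases Nat.lt_or_ge c k with hkc | hkc
  swap
  · -- k ≤ c
    refine key k ((ncard_triv h0 k _).trans (Nat.le_mul_of_pos_left _ (by norm_num))) (by omega) ?_
    intro δ hδ
    exact content hP h0 h2 (Ideal.pow_le_pow_right hkc ha) (Ideal.pow_le_pow_right hkc hb)
      (Ideal.pow_le_pow_right hkc hg) hδ
  by_cases hA : α ∈ P ^ (c + 1)
  · by_cases hB : 2 * β ∈ P ^ (c + 1)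
    · -- no zeros
      have hG : γ ∉ P ^ (c + 1) := fun h => hc ⟨hA, hB, h⟩
      have hemp : ZS P k α β γ = ∅ := by
        rw [Set.eq_empty_iff_forall_notMem]
        intro w hw
        obtain ⟨u, rfl⟩ := Ideal.Quotient.mk_surjective w
        rw [mem_ZS] at hw
        apply hG
        have h1 : γ = (α * u ^ 2 + 2 * β * u + γ) - (u ^ 2 * α + u * (2 * β)) := by ring
        rw [h1]
        exact sub_mem (Ideal.pow_le_pow_right (by omega) hw)
          (add_mem (Ideal.mul_mem_left _ _ hA) (Ideal.mul_mem_left _ _ hB))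
      rw [hemp, Set.ncard_empty]
      refine ⟨by positivity, fun δ _ => by positivity⟩
    · -- the linear coefficient dominates
      refine key c ?_ (by omega) (fun δ hδ => content hP h0 h2 ha hb hg hδ)
      refine le_trans (cls h0 k (k - c) _ ?_) ?_
      · intro u u' hu hu'
        rw [mem_ZS] at hu hu'
        have h1 : (α * (u + u') + 2 * β) * (u - u') ∈ P ^ k := by
          have := sub_mem hu hu'
          have e : α * u ^ 2 + 2 * β * u + γ - (α * u' ^ 2 + 2 * β * u' + γ) =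
            (α * (u + u') + 2 * β) * (u - u') := by ring
          rwa [e] at this
        have h3 : α * (u + u') + 2 * β ∉ P ^ (c + 1) := by
          intro h
          apply hB
          have e : 2 * β = (α * (u + u') + 2 * β) - (u + u') * α := by ring
          rw [e]
          exact sub_mem h (Ideal.mul_mem_left _ _ hA)
        exact dv1 hP h0 h3 h1
      · rw [show k - (k - c) = c by omega]
        exact Nat.le_mul_of_pos_left _ (by norm_num)
  · -- the leading coefficient dominates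
    have hz : ∀ u : 𝓞 K, Ideal.Quotient.mk (P ^ k) u ∈ ZS P k α β γ →
        (α * u + β) * (α * u + β) - (β ^ 2 - α * γ) ∈ P ^ (c + k) := by
      intro u hu
      rw [mem_ZS] at hu
      have e : (α * u + β) * (α * u + β) - (β ^ 2 - α * γ) =
        α * (α * u ^ 2 + 2 * β * u + γ) := by ring
      rw [e]
      exact mul_pmem ha hu
    by_cases hDn : β ^ 2 - α * γ ∈ P ^ (c + k)
    · -- z ^ 2 = 0
      have hz2 : ∀ u : 𝓞 K, Ideal.Quotient.mk (P ^ k) u ∈ ZS P k α β γ →
          α * u + β ∈ P ^ ((c + k + 1) / 2) := by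
        intro u hu
        have h1 : (α * u + β) * (α * u + β) ∈ P ^ (c + k) := by
          have := add_mem (hz u hu) hDn
          rwa [sub_add_cancel] at this
        by_contra hcon
        obtain ⟨j, hj, hj1, hj2⟩ := ex_val' hcon
        have h3 := mul_nmem hP h0 hj2 hj2
        have h4 := le_of_val h1 h3
        omega
      refine key ((c + k) / 2) ?_ (by omega) ?_
      · refine le_trans (cls h0 k ((c + k + 1) / 2 - c) _ ?_) ?_
        · intro u u' hu hu'
          have h1 := sub_mem (hz2 u hu) (hz2 u' hu')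
          have e : α * u + β - (α * u' + β) = α * (u - u') := by ring
          rw [e] at h1
          exact dv1 hP h0 hA h1
        · rw [show k - ((c + k + 1) / 2 - c) = (c + k) / 2 by omega]
          exact Nat.le_mul_of_pos_left _ (by norm_num)
      · intro δ hδ
        have := le_of_val hDn hδ
        omega
    · -- z ^ 2 has the exact exponent of the discriminant
      obtain ⟨d, hd, hd1, hd2⟩ := ex_val' hDn
      rcases Set.eq_empty_or_nonempty (ZS P k α β γ) with hSe | ⟨w, hw⟩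
      · rw [hSe, Set.ncard_empty]
        refine ⟨by positivity, fun δ _ => by positivity⟩
      obtain ⟨u₀, rfl⟩ := Ideal.Quotient.mk_surjective w
      -- the exponent of z_0
      have hz0 := hz u₀ hw
      have hzz : (α * u₀ + β) * (α * u₀ + β) ∉ P ^ (d + 1) := by
        intro h
        apply hd2
        have e : β ^ 2 - α * γ = (α * u₀ + β) * (α * u₀ + β) -
          ((α * u₀ + β) * (α * u₀ + β) - (β ^ 2 - α * γ)) := by ring
        rw [e]
        exact sub_mem h (Ideal.pow_le_pow_right (by omega) hz0)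
      have hzd : (α * u₀ + β) * (α * u₀ + β) ∈ P ^ d := by
        have h1 := add_mem (Ideal.pow_le_pow_right (by omega : d ≤ c + k) hz0) hd1
        rwa [sub_add_cancel] at h1
      have hzn : α * u₀ + β ≠ 0 := by
        intro h
        rw [h, zero_mul] at hzz
        exact hzz (zero_mem _)
      obtain ⟨j, hj1, hj2⟩ := ex_val hP hzn
      have hdj : d = 2 * j := by
        have h1 := le_of_val (mul_pmem hj1 hj1) hzz
        have h3 := le_of_val hzd (mul_nmem hP h0 hj2 hj2)
        omega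
      have h2z : 2 * (α * u₀ + β) ∉ P ^ (t + j + 1) := mul_nmem hP h0 h2 hj2
      -- two classes
      have hcl : ∀ u : 𝓞 K, Ideal.Quotient.mk (P ^ k) u ∈ ZS P k α β γ →
          (α * u + β) - (α * u₀ + β) ∈ P ^ (c + k - (t + j)) ∨
          (α * u + β) + (α * u₀ + β) ∈ P ^ (c + k - (t + j)) := by
        intro u hu
        have h1 : ((α * u + β) - (α * u₀ + β)) * ((α * u + β) + (α * u₀ + β)) ∈ P ^ (c + k) := by
          have h3 := sub_mem (hz u hu) hz0
          have e : (α * u + β) * (α * u + β) - (β ^ 2 - α * γ) -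
            ((α * u₀ + β) * (α * u₀ + β) - (β ^ 2 - α * γ)) =
            ((α * u + β) - (α * u₀ + β)) * ((α * u + β) + (α * u₀ + β)) := by ring
          rwa [e] at h3
        by_cases h3 : (α * u + β) - (α * u₀ + β) ∈ P ^ (t + j + 1)
        · left
          have h4 : (α * u + β) + (α * u₀ + β) ∉ P ^ (t + j + 1) := by
            intro h5
            apply h2z
            have e : 2 * (α * u₀ + β) = ((α * u + β) + (α * u₀ + β)) -
              ((α * u + β) - (α * u₀ + β)) := by ring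
            rw [e]
            exact sub_mem h5 h3
          rw [mul_comm] at h1
          exact dv1 hP h0 h4 h1
        · right
          exact dv1 hP h0 h3 h1
      have hsub : ZS P k α β γ ⊆
          {w | w ∈ ZS P k α β γ ∧ ∃ u, Ideal.Quotient.mk (P ^ k) u = w ∧
            (α * u + β) - (α * u₀ + β) ∈ P ^ (c + k - (t + j))} ∪
          {w | w ∈ ZS P k α β γ ∧ ∃ u, Ideal.Quotient.mk (P ^ k) u = w ∧
            (α * u + β) + (α * u₀ + β) ∈ P ^ (c + k - (t + j))} := by
        intro w hw'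
        obtain ⟨u, rfl⟩ := Ideal.Quotient.mk_surjective w
        rcases hcl u hw' with h | h
        · exact Or.inl ⟨hw', u, rfl, h⟩
        · exact Or.inr ⟨hw', u, rfl, h⟩
      have hlift : ∀ (b : 𝓞 K) (u u' : 𝓞 K), Ideal.Quotient.mk (P ^ k) u' =
          Ideal.Quotient.mk (P ^ k) u → (α * u' + β) + b ∈ P ^ (c + k - (t + j)) →
          (α * u + β) + b ∈ P ^ (c + k - (t + j)) := by
        intro b u u' h1 h3
        have h4 : u' - u ∈ P ^ k := Ideal.Quotient.eq.mp h1
        have e : (α * u + β) + b = ((α * u' + β) + b) - α * (u' - u) := by ring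
        rw [e]
        exact sub_mem h3 (Ideal.pow_le_pow_right (by omega) (mul_pmem ha h4))
      have hb1 : {w | w ∈ ZS P k α β γ ∧ ∃ u, Ideal.Quotient.mk (P ^ k) u = w ∧
            (α * u + β) - (α * u₀ + β) ∈ P ^ (c + k - (t + j))}.ncard ≤ q ^ (t + j) := by
        refine le_trans (cls h0 k (c + k - (t + j) - c) _ ?_) (Nat.pow_le_pow_right hq (by omega))
        rintro u u' ⟨_, v, hv, hv2⟩ ⟨_, v', hv', hv2'⟩
        rw [sub_eq_add_neg] at hv2 hv2'
        have h1 := sub_mem (hlift _ u v hv hv2) (hlift _ u' v' hv' hv2')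
        have e : α * u + β + -(α * u₀ + β) - (α * u' + β + -(α * u₀ + β)) = α * (u - u') := by ring
        rw [e] at h1
        exact dv1 hP h0 hA h1
      have hb2 : {w | w ∈ ZS P k α β γ ∧ ∃ u, Ideal.Quotient.mk (P ^ k) u = w ∧
            (α * u + β) + (α * u₀ + β) ∈ P ^ (c + k - (t + j))}.ncard ≤ q ^ (t + j) := by
        refine le_trans (cls h0 k (c + k - (t + j) - c) _ ?_) (Nat.pow_le_pow_right hq (by omega))
        rintro u u' ⟨_, v, hv, hv2⟩ ⟨_, v', hv', hv2'⟩
        have h1 := sub_mem (hlift _ u v hv hv2) (hlift _ u' v' hv' hv2')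
        have e : α * u + β + (α * u₀ + β) - (α * u' + β + (α * u₀ + β)) = α * (u - u') := by ring
        rw [e] at h1
        exact dv1 hP h0 hA h1
      refine key (t + j) ?_ (by omega) ?_
      · calc (ZS P k α β γ).ncard ≤ _ := Set.ncard_le_ncard hsub (Set.toFinite _)
          _ ≤ _ := Set.ncard_union_le _ _
          _ ≤ q ^ (t + j) + q ^ (t + j) := Nat.add_le_add hb1 hb2
          _ = 2 * q ^ (t + j) := by ring
      · intro δ hδ
        have := le_of_val hd1 hδ
        omega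

end cnt

theorem pf_L_RT : L_RT := by
  intro K _ _ P hP h0 k t α β γ h2
  have hfin := fin_q (K := K) h0 k
  have e : nrt K P k α β γ = (ZS P k α β γ).ncard := rfl
  have hN : Nf K P = ((Ideal.absNorm P : ℕ) : ℝ) := rfl
  rw [e, hN]
  have hex : ∀ c : ℕ, ¬ (α ∈ P ^ (c + 1) ∧ 2 * β ∈ P ^ (c + 1) ∧ γ ∈ P ^ (c + 1)) →
      ∃ c' ≤ c, (α ∈ P ^ c' ∧ 2 * β ∈ P ^ c' ∧ γ ∈ P ^ c') ∧
        ¬ (α ∈ P ^ (c' + 1) ∧ 2 * β ∈ P ^ (c' + 1) ∧ γ ∈ P ^ (c' + 1)) := by
    intro c hc
    classical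
    have hx : ∃ c : ℕ, ¬ (α ∈ P ^ (c + 1) ∧ 2 * β ∈ P ^ (c + 1) ∧ γ ∈ P ^ (c + 1)) := ⟨c, hc⟩
    refine ⟨Nat.find hx, Nat.find_min' hx hc, ?_, Nat.find_spec hx⟩
    rcases Nat.eq_zero_or_pos (Nat.find hx) with h | h
    · rw [h]; simp
    · have h3 := Nat.find_min hx (m := Nat.find hx - 1) (by omega)
      rw [not_not] at h3
      rwa [Nat.sub_add_cancel h] at h3
  have hq := q_pos h0
  refine ⟨?_, ?_, ?_⟩
  · exact_mod_cast ncard_triv h0 k (ZS P k α β γ)
  · intro c hc
    obtain ⟨c', hcc, ⟨h3, h4, h5⟩, h6⟩ := hex c hc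
    have h7 := (main_nat hP h0 (k := k) h2 h3 h4 h5 h6).1
    have h8 : (ZS P k α β γ).ncard ^ 2 ≤
        4 * Ideal.absNorm P ^ (2 * t) * Ideal.absNorm P ^ (k + c) :=
      h7.trans (Nat.mul_le_mul_left _ (Nat.pow_le_pow_right hq (by omega)))
    exact_mod_cast h8
  · intro δ hδ
    have hc : ¬ (α ∈ P ^ (2 * t + δ + 1) ∧ 2 * β ∈ P ^ (2 * t + δ + 1) ∧
        γ ∈ P ^ (2 * t + δ + 1)) := by
      rintro ⟨h3, h4, h5⟩
      have := content hP h0 h2 h3 h4 h5 hδ
      omega
    obtain ⟨c', hcc, ⟨h3, h4, h5⟩, h6⟩ := hex _ hc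
    have h7 := (main_nat hP h0 (k := k) h2 h3 h4 h5 h6).2 δ hδ
    exact_mod_cast h7

end Pool.Agent.H48.BG
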