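import Pool.Agent.H48.BG.RT
import Pool.Agent.H23.BG.RS
import Pool.Agent.H23.BG.TR

/-!
# (L2) the complete sum modulo a prime power
-/

set_option autoImplicit false

open NumberField

namespace Pool.Agent.H48.BG

open Pool.Agent.H23.BG Pool.Agent.H23.LB Pool.Agent.H29.TC

/-! ### numbers -/

theorem num_even {Q x y : ℝ} (hQ : 1 ≤ Q) (hx0 : 0 ≤ x) {k t s : ℕ} (hx : x ≤ Q ^ k * y)
    (hy : y ^ 2 ≤ 4 * Q ^ (2 * t) * Q ^ s) : x ^ 2 ≤ 4 * Q ^ (2 * k + 2 * t + s) := by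
  have h1 : x ^ 2 ≤ (Q ^ k * y) ^ 2 := pow_le_pow_left₀ hx0 hx 2
  calc x ^ 2 ≤ Q ^ (2 * k) * y ^ 2 := by rw [mul_pow, ← pow_mul, mul_comm k 2] at h1; exact h1
    _ ≤ Q ^ (2 * k) * (4 * Q ^ (2 * t) * Q ^ s) := by gcongr
    _ = _ := by rw [pow_add, pow_add]; ring

theorem num_odd {Q x y z : ℝ} (hQ : 1 ≤ Q) (hx0 : 0 ≤ x) {r s : ℕ}
    (hx : x ≤ Q ^ r * (Real.sqrt Q * y + z)) (hy : y ^ 2 ≤ 4 * Q ^ s)
    (hz : z ^ 2 ≤ 4 * Q ^ (s + 1)) : x ^ 2 ≤ 16 * Q ^ (2 * r + 1 + s) := by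
  have h1 : x ^ 2 ≤ (Q ^ r * (Real.sqrt Q * y + z)) ^ 2 := pow_le_pow_left₀ hx0 hx 2
  have hs : Real.sqrt Q ^ 2 = Q := Real.sq_sqrt (by linarith)
  have h2 : (Real.sqrt Q * y + z) ^ 2 ≤ 2 * (Q * y ^ 2) + 2 * z ^ 2 := by
    have h3 : (Real.sqrt Q * y + z) ^ 2 + (Real.sqrt Q * y - z) ^ 2 =
      2 * (Real.sqrt Q ^ 2 * y ^ 2) + 2 * z ^ 2 := by ring
    rw [hs] at h3
    nlinarith [sq_nonneg (Real.sqrt Q * y - z)]
  calc x ^ 2 ≤ Q ^ (2 * r) * (Real.sqrt Q * y + z) ^ 2 := by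
        rw [mul_pow, ← pow_mul, mul_comm r 2] at h1; exact h1
    _ ≤ Q ^ (2 * r) * (2 * (Q * y ^ 2) + 2 * z ^ 2) := by gcongr
    _ ≤ Q ^ (2 * r) * (2 * (Q * (4 * Q ^ s)) + 2 * (4 * Q ^ (s + 1))) := by gcongr
    _ = _ := by rw [pow_add, pow_add, pow_add]; ring

theorem fin6 {Q x A C : ℝ} (hQ : 1 ≤ Q) (hC : 0 ≤ C) {m u w : ℕ} (h : x ^ 2 ≤ C * Q ^ m)
    (hm : 3 * m ≤ u + w) (hA : C ^ 3 * Q ^ u ≤ A ^ 6) : x ^ 6 ≤ A ^ 6 * Q ^ w := by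
  calc x ^ 6 = (x ^ 2) ^ 3 := by ring
    _ ≤ (C * Q ^ m) ^ 3 := pow_le_pow_left₀ (by positivity) h 3
    _ = C ^ 3 * Q ^ (3 * m) := by rw [mul_pow, ← pow_mul, mul_comm m 3]
    _ ≤ C ^ 3 * Q ^ (u + w) := by gcongr
    _ = (C ^ 3 * Q ^ u) * Q ^ w := by rw [pow_add]; ring
    _ ≤ A ^ 6 * Q ^ w := by gcongr

theorem fin4 {Q x A C : ℝ} (hQ : 1 ≤ Q) (_hC : 0 ≤ C) {m u w : ℕ} (h : x ^ 2 ≤ C * Q ^ m)
    (hm : 2 * m ≤ u + w) (hA : C ^ 2 * Q ^ u ≤ A ^ 4) : x ^ 4 ≤ A ^ 4 * Q ^ w := by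
  calc x ^ 4 = (x ^ 2) ^ 2 := by ring
    _ ≤ (C * Q ^ m) ^ 2 := pow_le_pow_left₀ (by positivity) h 2
    _ = C ^ 2 * Q ^ (2 * m) := by rw [mul_pow, ← pow_mul, mul_comm m 2]
    _ ≤ C ^ 2 * Q ^ (u + w) := by gcongr
    _ = (C ^ 2 * Q ^ u) * Q ^ w := by rw [pow_add]; ring
    _ ≤ A ^ 4 * Q ^ w := by gcongr

/-- the constants at the primes above `2` -/
theorem ccst {Q : ℝ} (hQ : 1 ≤ Q) {n t : ℕ} (ht : 1 ≤ t) (hQt : Q ^ t ≤ 2 ^ n) :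
    4 ^ 3 * Q ^ (6 * t + 3) ≤ (4 ^ (n + 1) : ℝ) ^ 6 ∧
    4 ^ 2 * Q ^ (6 * t + 1) ≤ (4 ^ (n + 1) : ℝ) ^ 4 := by
  have hQ0 : (0 : ℝ) ≤ Q := by linarith
  have h1 : Q ≤ 2 ^ n := by
    calc Q = Q ^ 1 := (pow_one Q).symm
      _ ≤ Q ^ t := pow_le_pow_right₀ hQ ht
      _ ≤ _ := hQt
  have e4 : (4 : ℝ) ^ (n + 1) = 4 * (2 ^ n) ^ 2 := by
    rw [pow_succ, ← pow_mul, mul_comm n 2, pow_mul]; norm_num; ring
  have hz : (1 : ℝ) ≤ 2 ^ n := one_le_pow₀ (by norm_num)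
  constructor
  · calc 4 ^ 3 * Q ^ (6 * t + 3) = 4 ^ 3 * ((Q ^ t) ^ 6 * Q ^ 3) := by
          rw [pow_add, ← pow_mul, mul_comm t 6]
      _ ≤ 4 ^ 3 * ((2 ^ n) ^ 6 * (2 ^ n) ^ 3) := by gcongr
      _ = 4 ^ 3 * (2 ^ n) ^ 9 := by ring
      _ ≤ 4 ^ 6 * (2 ^ n) ^ 12 := by
          have : ((2 : ℝ) ^ n) ^ 9 ≤ (2 ^ n) ^ 12 := pow_le_pow_right₀ hz (by norm_num)
          have h0 : (0 : ℝ) ≤ (2 ^ n) ^ 12 := by positivity
          linarith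
      _ = _ := by rw [e4]; ring
  · calc 4 ^ 2 * Q ^ (6 * t + 1) = 4 ^ 2 * ((Q ^ t) ^ 6 * Q) := by
          rw [pow_add, ← pow_mul, mul_comm t 6, pow_one]
      _ ≤ 4 ^ 2 * ((2 ^ n) ^ 6 * (2 ^ n)) := by gcongr
      _ = 4 ^ 2 * (2 ^ n) ^ 7 := by ring
      _ ≤ 4 ^ 4 * (2 ^ n) ^ 8 := by
          have : ((2 : ℝ) ^ n) ^ 7 ≤ (2 ^ n) ^ 8 := pow_le_pow_right₀ hz (by norm_num)
          have h0 : (0 : ℝ) ≤ (2 ^ n) ^ 8 := by positivity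
          linarith
      _ = _ := by rw [e4]; ring

/-- the three cases -/
theorem cases3 {Q x A : ℝ} (hQ : 1 ≤ Q) (hx0 : 0 ≤ x) {n e t : ℕ} (y : ℕ → ℝ) (two : Prop)
    (hA : (t = 0 ∧ ¬ two ∧ A = 4) ∨ (1 ≤ t ∧ two ∧ Q ^ t ≤ 2 ^ n ∧ A = 4 ^ (n + 1)))
    (hc : (∃ k, e = 2 * k ∧ x ≤ Q ^ k * y k) ∨
      (∃ r, e = 2 * r + 1 ∧ ¬ two ∧ x ≤ Q ^ r * (Real.sqrt Q * y r + y (r + 1))) ∨
      (∃ r, e = 2 * r + 1 ∧ two ∧ x ≤ Q ^ (r + 1) * y r)) :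
    (∀ δ, (∀ k, y k ^ 2 ≤ 4 * Q ^ (2 * t) * Q ^ δ) → x ^ 6 ≤ A ^ 6 * Q ^ (3 * e + 3 * δ)) ∧
    (∀ c, (∀ k, y k ^ 2 ≤ 4 * Q ^ (2 * t) * Q ^ (k + (t + c))) →
      x ^ 4 ≤ A ^ 4 * Q ^ (3 * e + 2 * c)) := by
  rcases hA with ⟨rfl, hn2, rfl⟩ | ⟨ht, h2, hQt, rfl⟩
  · rcases hc with ⟨k, rfl, hx⟩ | ⟨r, rfl, _, hx⟩ | ⟨r, _, h2, _⟩
    · constructor
      · intro δ h
        exact fin6 hQ (by norm_num) (num_even hQ hx0 hx (h k)) (u := 0) (by omega) (by norm_num)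
      · intro c h
        exact fin4 hQ (by norm_num) (num_even hQ hx0 hx (h k)) (u := 0) (by omega) (by norm_num)
    · constructor
      · intro δ h
        have h1 : y r ^ 2 ≤ 4 * Q ^ δ := by simpa using h r
        have h2 : y (r + 1) ^ 2 ≤ 4 * Q ^ (δ + 1) := by
          have := h (r + 1)
          simp only [mul_zero, pow_zero, mul_one] at this
          refine this.trans ?_
          gcongr
          omega
        exact fin6 hQ (by norm_num) (num_odd hQ hx0 hx h1 h2) (u := 0) (by omega) (by norm_num)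
      · intro c h
        have h1 : y r ^ 2 ≤ 4 * Q ^ (r + c) := by simpa using h r
        have h2 : y (r + 1) ^ 2 ≤ 4 * Q ^ (r + c + 1) := by
          have := h (r + 1)
          simp only [mul_zero, pow_zero, mul_one, zero_add] at this
          rwa [show r + 1 + c = r + c + 1 by ring] at this
        exact fin4 hQ (by norm_num) (num_odd hQ hx0 hx h1 h2) (u := 0) (by omega) (by norm_num)
    · exact absurd h2 hn2
  · obtain ⟨c6, c4⟩ := ccst hQ ht hQt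
    have c6' : 4 ^ 3 * Q ^ (6 * t) ≤ (4 ^ (n + 1) : ℝ) ^ 6 := by
      refine le_trans ?_ c6
      gcongr
      omega
    have c4' : 4 ^ 2 * Q ^ (6 * t) ≤ (4 ^ (n + 1) : ℝ) ^ 4 := by
      refine le_trans ?_ c4
      gcongr
      omega
    rcases hc with ⟨k, rfl, hx⟩ | ⟨r, _, hn2, _⟩ | ⟨r, rfl, _, hx⟩
    · constructor
      · intro δ h
        exact fin6 hQ (by norm_num) (num_even hQ hx0 hx (h k)) (by omega) c6'
      · intro c h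
        exact fin4 hQ (by norm_num) (num_even hQ hx0 hx (h k)) (by omega) c4'
    · exact absurd h2 hn2
    · constructor
      · intro δ h
        exact fin6 hQ (by norm_num) (num_even hQ hx0 hx (h r)) (by omega) c6
      · intro c h
        exact fin4 hQ (by norm_num) (num_even hQ hx0 hx (h r)) (by omega) c4

/-- the norm of `2` -/
theorem q_two {K : Type} [Field K] [NumberField K] {P : Ideal (𝓞 K)} {n t : ℕ}
    (hn : Module.finrank ℚ K = n) (ht : (2 : 𝓞 K) ∈ P ^ t) : Nf K P ^ t ≤ 2 ^ n := by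
  have h1 : Ideal.absNorm (P ^ t) ∣ Ideal.absNorm (Ideal.span {((2 : ℕ) : 𝓞 K)}) := by
    apply Ideal.absNorm_dvd_absNorm_of_le
    rw [Ideal.span_singleton_le_iff_mem]
    exact_mod_cast ht
  rw [Ideal.absNorm_span_natCast, RingOfIntegers.rank, hn, map_pow] at h1
  have h2 := Nat.le_of_dvd (by positivity) h1
  have hN : Nf K P = ((Ideal.absNorm P : ℕ) : ℝ) := rfl
  rw [hN]
  exact_mod_cast h2

theorem pf_L_L2 (hPN : L_PN) (hLE : L_LE) (hLO : L_LO) : L_L2 := by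
  intro n K _ _ hn P hP h0 e he _ η hη a
  obtain ⟨v, hsym, hul, hle, hd, hmem, -, e10, e2, e3⟩ := hPN K P hP h0 e a
  have hN0 : ∀ k : ℕ, ((Ideal.absNorm P ^ k : ℕ) : ℝ) = Nf K P ^ k := by
    intro k
    push_cast
    rfl
  have hN : Nf K (P ^ e) = Nf K P ^ e := by
    rw [← hN0, ← map_pow]
    rfl
  rw [hN, e10, e2, e3]
  obtain ⟨t, ht1, ht2⟩ := ex_val hP (two_ne_zero : (2 : 𝓞 K) ≠ 0)
  have hRT := pf_L_RT K P hP h0
  have hQ : 1 ≤ Nf K P := by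
    have := q_pos h0
    show (1 : ℝ) ≤ ((Ideal.absNorm P : ℕ) : ℝ)
    exact_mod_cast this
  have hQt : Nf K P ^ t ≤ 2 ^ n := q_two hn ht1
  have hx0 : 0 ≤ ‖c4 η (fun i => Ideal.Quotient.mk (P ^ e) (a i))‖ := norm_nonneg _
  have hxN : ‖c4 η (fun i => Ideal.Quotient.mk (P ^ e) (a i))‖ ≤ Nf K P ^ e := by
    have h1 : ((Fintype.card (𝓞 K ⧸ P ^ e) : ℕ) : ℝ) = Nf K P ^ e := by
      rw [← Nat.card_eq_fintype_card, card_q, hN0]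
    rw [← h1]
    unfold c4
    refine (norm_sum_le _ _).trans ?_
    have h2 : ∀ y ∈ (Finset.univ : Finset (𝓞 K ⧸ P ^ e)),
        ‖η (y + Ideal.Quotient.mk (P ^ e) (a 0)) * η (y + Ideal.Quotient.mk (P ^ e) (a 1)) *
          (starRingEnd ℂ) (η (y + Ideal.Quotient.mk (P ^ e) (a 2))) *
          (starRingEnd ℂ) (η (y + Ideal.Quotient.mk (P ^ e) (a 3)))‖ ≤ 1 := by
      intro y _
      rw [norm_mul, norm_mul, norm_mul, RCLike.norm_conj, RCLike.norm_conj]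
      have n0 := hη.mc.norm_le (y + Ideal.Quotient.mk (P ^ e) (a 0))
      have n1 := hη.mc.norm_le (y + Ideal.Quotient.mk (P ^ e) (a 1))
      have n2 := hη.mc.norm_le (y + Ideal.Quotient.mk (P ^ e) (a 2))
      have n3 := hη.mc.norm_le (y + Ideal.Quotient.mk (P ^ e) (a 3))
      exact mul_le_one₀ (mul_le_one₀ (mul_le_one₀ n0 (norm_nonneg _) n1) (norm_nonneg _) n2)
        (norm_nonneg _) n3
    refine (Finset.sum_le_sum h2).trans ?_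
    simp
  have hA : (t = 0 ∧ ¬ ((2 : 𝓞 K) ∈ P) ∧ Ac K n P = 4) ∨
      (1 ≤ t ∧ ((2 : 𝓞 K) ∈ P) ∧ Nf K P ^ t ≤ 2 ^ n ∧ Ac K n P = 4 ^ (n + 1)) := by
    by_cases h2 : (2 : 𝓞 K) ∈ P
    · right
      refine ⟨?_, h2, hQt, by unfold Ac; rw [if_pos h2]⟩
      by_contra hc
      apply ht2
      rw [show t + 1 = 1 by omega, pow_one]
      exact h2
    · left
      refine ⟨?_, h2, by unfold Ac; rw [if_neg h2]⟩
      by_contra hc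
      apply h2
      have := Ideal.pow_le_pow_right (show 1 ≤ t by omega) ht1
      rwa [pow_one] at this
  have hA1 : 1 ≤ Ac K n P := by
    rcases hA with ⟨_, _, h⟩ | ⟨_, _, _, h⟩
    · rw [h]; norm_num
    · rw [h]; exact one_le_pow₀ (by norm_num)
  have hLE' : ∀ e' : ℕ, e' = e → ∀ r s : ℕ, e' = r + s → r ≤ s → s ≤ r + 1 → 1 ≤ r →
      ‖c4 η (fun i => Ideal.Quotient.mk (P ^ e) (a i))‖ ≤
        Nf K P ^ s * nrt K P r (al a) (be a) (ga a) := by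
    intro e' he' r s hrs h1 h2 h3
    obtain rfl : e = r + s := by omega
    exact hLE K P hP h0 r s h1 h2 h3 η hη a
  have hLO' : ∀ r : ℕ, e = 2 * r + 1 → 1 ≤ r → (2 : 𝓞 K) ∉ P →
      ‖c4 η (fun i => Ideal.Quotient.mk (P ^ e) (a i))‖ ≤
      Nf K P ^ r * (Real.sqrt (Nf K P) * nrt K P r (al a) (be a) (ga a) +
        nrt K P (r + 1) (al a) (be a) (ga a)) := by
    intro r hr h1 h2
    subst hr
    exact hLO K P hP h0 h2 r h1 η hη a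
  have hc : (∃ k, e = 2 * k ∧ ‖c4 η (fun i => Ideal.Quotient.mk (P ^ e) (a i))‖ ≤
        Nf K P ^ k * (fun k => (nrt K P k (al a) (be a) (ga a) : ℝ)) k) ∨
      (∃ r, e = 2 * r + 1 ∧ ¬ ((2 : 𝓞 K) ∈ P) ∧
        ‖c4 η (fun i => Ideal.Quotient.mk (P ^ e) (a i))‖ ≤
        Nf K P ^ r * (Real.sqrt (Nf K P) * (fun k => (nrt K P k (al a) (be a) (ga a) : ℝ)) r +
          (fun k => (nrt K P k (al a) (be a) (ga a) : ℝ)) (r + 1))) ∨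
      (∃ r, e = 2 * r + 1 ∧ ((2 : 𝓞 K) ∈ P) ∧
        ‖c4 η (fun i => Ideal.Quotient.mk (P ^ e) (a i))‖ ≤
        Nf K P ^ (r + 1) * (fun k => (nrt K P k (al a) (be a) (ga a) : ℝ)) r) := by
    rcases Nat.even_or_odd' e with ⟨r, hr | hr⟩
    · exact Or.inl ⟨r, hr, hLE' e rfl r r (by omega) le_rfl (by omega) (by omega)⟩
    · by_cases h2 : (2 : 𝓞 K) ∈ P
      · exact Or.inr (Or.inr ⟨r, hr, h2, hLE' e rfl r (r + 1) (by omega) (by omega) le_rfl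
          (by omega)⟩)
      · exact Or.inr (Or.inl ⟨r, hr, h2, hLO' r hr (by omega) h2⟩)
  obtain ⟨H6, H4⟩ := cases3 hQ hx0 _ _ hA hc
  obtain ⟨hRS1, hRS2⟩ := pf_RS (𝓞 K) a
  obtain ⟨hTR1, hTR2⟩ := pf_TR v hsym hul
  -- the true valuations
  have htrue : ∀ i j, v i j < e → a i - a j ∉ P ^ (v i j + 1) := by
    intro i j h1 h2
    have := (hmem i j (v i j + 1) h1).mp h2
    omega
  generalize hxd : ‖c4 η (fun i => Ideal.Quotient.mk (P ^ e) (a i))‖ = x at *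
  generalize hQd : Nf K P = Q at *
  generalize hAd : Ac K n P = A at *
  have triv : ∀ m w : ℕ, m * e ≤ w → x ^ m ≤ A ^ m * Q ^ w := by
    intro m w hw
    calc x ^ m ≤ (Q ^ e) ^ m := pow_le_pow_left₀ hx0 hxN m
      _ = Q ^ (m * e) := by rw [← pow_mul, mul_comm]
      _ ≤ Q ^ w := pow_le_pow_right₀ hQ hw
      _ = 1 * Q ^ w := (one_mul _).symm
      _ ≤ A ^ m * Q ^ w := by
        gcongr
        exact one_le_pow₀ hA1
  have B6 : x ^ 6 ≤ A ^ 6 * Q ^ (3 * e + 3 * (v 0 2 + v 0 3 + v 1 2 + v 1 3)) := by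
    by_cases h4 : v 0 2 < e ∧ v 0 3 < e ∧ v 1 2 < e ∧ v 1 3 < e
    · obtain ⟨h02, h03, h12, h13⟩ := h4
      have hD : be a ^ 2 - al a * ga a ∉ P ^ (v 0 2 + v 0 3 + v 1 2 + v 1 3 + 1) := by
        rw [hRS1]
        have := mul_nmem hP h0 (mul_nmem hP h0 (htrue _ _ h02) (htrue _ _ h03))
          (mul_nmem hP h0 (htrue _ _ h12) (htrue _ _ h13))
        rwa [show v 0 2 + v 0 3 + v 1 2 + v 1 3 + 1 = v 0 2 + v 0 3 + (v 1 2 + v 1 3) + 1 by ring]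
      exact H6 _ (fun k => (hRT k t _ _ _ ht2).2.2 _ hD)
    · apply triv
      have h5 : e ≤ v 0 2 + v 0 3 + v 1 2 + v 1 3 := by
        by_contra hcon
        exact h4 (by omega)
      omega
  have B4 : ∃ c, (c ≤ v 0 2 + v 1 2 ∧ c ≤ v 0 3 + v 1 3 ∧ c ≤ v 0 2 + v 0 3 ∧
      c ≤ v 1 2 + v 1 3) ∧ x ^ 4 ≤ A ^ 4 * Q ^ (3 * e + 2 * c) := by
    refine ⟨min (min (v 0 2 + v 1 2) (v 0 3 + v 1 3)) (min (v 0 2 + v 0 3) (v 1 2 + v 1 3)),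
      ⟨by omega, by omega, by omega, by omega⟩, ?_⟩
    generalize hcd : min (min (v 0 2 + v 1 2) (v 0 3 + v 1 3))
      (min (v 0 2 + v 0 3) (v 1 2 + v 1 3)) = c
    by_cases hce : e ≤ c
    · apply triv; omega
    · apply H4
      intro k
      apply (hRT k t _ _ _ ht2).2.1
      rintro ⟨g1, g2, g3⟩
      obtain ⟨m1, m2, m3, m4⟩ := hRS2 _ g1 g2 g3
      have hcs : c = v 0 2 + v 1 2 ∨ c = v 0 3 + v 1 3 ∨ c = v 0 2 + v 0 3 ∨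
        c = v 1 2 + v 1 3 := by omega
      rcases hcs with hcs | hcs | hcs | hcs
      · refine mul_nmem hP h0 ht2 (mul_nmem hP h0 (htrue 0 2 (by omega)) (htrue 1 2 (by omega))) ?_
        rwa [← hcs]
      · refine mul_nmem hP h0 ht2 (mul_nmem hP h0 (htrue 0 3 (by omega)) (htrue 1 3 (by omega))) ?_
        rwa [← hcs]
      · refine mul_nmem hP h0 ht2 (mul_nmem hP h0 (htrue 0 2 (by omega)) (htrue 0 3 (by omega))) ?_
        rwa [← hcs]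
      · refine mul_nmem hP h0 ht2 (mul_nmem hP h0 (htrue 1 2 (by omega)) (htrue 1 3 (by omega))) ?_
        rwa [← hcs]
  obtain ⟨c, ⟨k1, k2, k3, k4⟩, B4⟩ := B4
  obtain ⟨r1, r2, r3⟩ := hTR2 c k1 k2 k3 k4
  have hA0 : 0 ≤ A := by linarith
  have fin : ∀ i j : ℕ, c ≤ i + j → x ^ 4 ≤ A ^ 4 * (Q ^ e) ^ 3 * (Q ^ i * Q ^ j) ^ 2 := by
    intro i j hij
    calc x ^ 4 ≤ A ^ 4 * Q ^ (3 * e + 2 * c) := B4
      _ ≤ A ^ 4 * Q ^ (3 * e + 2 * (i + j)) := by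
        gcongr
      _ = _ := by ring
  refine ⟨hxN, ?_, fin _ _ r1, fin _ _ r2, fin _ _ r3⟩
  calc x ^ 6 ≤ A ^ 6 * Q ^ (3 * e + 3 * (v 0 2 + v 0 3 + v 1 2 + v 1 3)) := B6
    _ ≤ A ^ 6 * Q ^ (3 * e + 4 * (v 1 0 + max (v 2 0) (v 2 1) +
        max (max (v 3 0) (v 3 1)) (v 3 2))) := by
      gcongr
    _ = _ := by ring

end Pool.Agent.H48.BG
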